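import Pool.Agent.Helper69.MWF.Stmts

/-!
# MP_80e84b_lc (S14965): the uniform box
-/

set_option autoImplicit false

open Topology Set Filter
open Nat.Partrec (Code)

namespace Pool.Agent.Helper69.MWF

open Pool.Agent.Helper95.MW

namespace BoxAux

theorem lt_ec_of_mem {l : List ℕ} : ∀ {a : ℕ}, a ∈ l → a < ec l := by
  induction l with
  | nil => intro a h; simp at h
  | cons b l ih =>
    intro a h
    have h0 : ec (b :: l) = Nat.succ (Nat.pair b (ec l)) := by
      simp only [ec, Encodable.encode_list_cons, Encodable.encode_nat]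
    rw [h0]
    rcases List.mem_cons.1 h with h1 | h1
    · subst h1
      exact Nat.lt_succ_of_le (Nat.left_le_pair _ _)
    · exact ((ih h1).trans_le (Nat.right_le_pair _ _)).trans (Nat.lt_succ_self _)

theorem ec_inj {l l' : List ℕ} (h : ec l = ec l') : l = l' := by
  have := congrArg dl h
  rwa [dl_ec, dl_ec] at this

theorem ini_mem {f : ℕ → ℕ} {s i : ℕ} (h : i < s) : f i ∈ ini f s := by
  unfold ini
  exact List.mem_map.2 ⟨i, List.mem_range.2 h, rfl⟩

theorem rt_prim2 {w g h : ℕ → ℕ} {P : ℕ → ℕ → ℕ} (hP : Primrec₂ P) (hg : RT w g) (hh : RT w h) :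
    RT w (fun n => P (g n) (h n)) := by
  have h1 : Nat.Primrec (fun n : ℕ => P n.unpair.1 n.unpair.2) :=
    Primrec.nat_iff.1 (hP.comp (Primrec.fst.comp Primrec.unpair) (Primrec.snd.comp Primrec.unpair))
  have h2 := rt_comp (rt_prim (w := w) h1) (rt_pair hg hh)
  simpa only [Nat.unpair_pair] using h2

/-- `pre f n x ≤ x` -/
theorem pre_le (f : ℕ → ℕ) (n : ℕ) (x : ℕ → ℕ) : LE (pre f n x) x := by
  refine le_iff.2 ?_
  have hP : Primrec₂ (fun (i a : ℕ) => if i < n then (ini f n).getD i 0 else a) := by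
    refine Primrec.ite (PrimrecRel.comp Primrec.nat_lt Primrec.fst (Primrec.const n)) ?_
      Primrec.snd
    exact Primrec.list_getD 0 |>.comp (Primrec.const (ini f n)) Primrec.fst
  have h := rt_prim2 (w := x) hP (rt_prim (Primrec.nat_iff.1 Primrec.id)) (rt_oracle x)
  have e : pre f n x = fun i => if i < n then (ini f n).getD i 0 else x i := by
    funext i
    unfold pre
    by_cases hi : i < n
    · rw [if_pos hi, if_pos hi, List.getD_eq_getElem?_getD, ini_get? hi, Option.getD_some]
    · rw [if_neg hi, if_neg hi]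
  rw [e]
  exact h

/-- `act s g ≤ s ⊕ g` -/
theorem act_le (s g : ℕ → ℕ) : LE (act s g) (jn s g) := by
  refine le_iff.2 ?_
  have hs : RT (jn s g) s := le_iff.1 (le_jn_left s g)
  have hg : RT (jn s g) (fun k => ec (ini g k)) := by
    have h1 : LE (fun k => ec (ini g k)) g := le_iff.2 (rt_ini g)
    exact le_iff.1 (h1.trans (le_jn_right s g))
  have h : RT (jn s g) (fun n => s (ec (ini g (Nat.succ n)))) :=
    rt_comp hs (rt_comp hg (rt_prim (Primrec.nat_iff.1 Primrec.succ)))
  exact h

theorem isOpen_Cy (f : ℕ → ℕ) (n : ℕ) : IsOpen (Cy f n) := by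
  have e : Cy f n = ⋂ i ∈ Finset.range n, {x : ℕ → ℕ | x i = f i} := by
    ext x
    simp [Cy]
  rw [e]
  refine isOpen_biInter_finset fun i _ => ?_
  have hc : Continuous fun x : ℕ → ℕ => x i := continuous_apply i
  exact (isOpen_discrete ({f i} : Set ℕ)).preimage hc

theorem ini_congr {f g : ℕ → ℕ} {n : ℕ} (h : f ∈ Cy g n) {s : ℕ} (hs : s ≤ n) :
    ini f s = ini g s := ini_eq_of_agree fun i hi => h i (hi.trans_le hs)

theorem continuous_act : Continuous fun p : (ℕ → ℕ) × (ℕ → ℕ) => act p.1 p.2 := by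
  refine continuous_pi fun n => ?_
  unfold act
  refine continuous_iff_continuousAt.2 fun p => ?_
  have h1 : ∀ᶠ q : (ℕ → ℕ) × (ℕ → ℕ) in 𝓝 p, q.2 ∈ Cy p.2 (n + 1) := by
    refine ((isOpen_Cy p.2 (n + 1)).preimage continuous_snd).mem_nhds ?_
    intro i _
    rfl
  have h2 : ContinuousAt (fun q : (ℕ → ℕ) × (ℕ → ℕ) => q.1 (ec (ini p.2 (n + 1)))) p :=
    ((continuous_apply _).comp continuous_fst).continuousAt
  refine h2.congr ?_
  filter_upwards [h1] with q hq
  rw [ini_congr hq le_rfl]

end BoxAux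

open BoxAux

theorem st_BOX (uni1 : ST_UNI1) (uni2 : ST_UNI2) (comp : ST_COMP) (bsw : ST_BORSW)
    (res : ST_RES) : ST_BOX := by
  intro π F G hπ hR
  obtain ⟨-, -, rpre, -, -, rfst, rsnd, -, ract⟩ := res
  -- the set `G`
  have hG : ∀ᶠ x in residual (ℕ → ℕ), x ∈ G := hR.res
  -- joins
  have hjn : ∀ f g, LE (π (jn f g)) (jn (π f) (π g)) := by
    intro f g
    obtain ⟨w, hw1, hw2⟩ := hπ.surj (jn (π f) (π g))
    have h1 : LE f w := (hπ.iff _ _).2 ((le_jn_left _ _).trans hw2)
    have h2 : LE g w := (hπ.iff _ _).2 ((le_jn_right _ _).trans hw2)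
    exact ((hπ.iff _ _).1 (jn_le h1 h2)).trans hw1
  -- first box
  set P : Code → Set ((ℕ → ℕ) × (ℕ → ℕ)) := fun c =>
    {p | segs (F (act p.1 p.2)) = WC c (jn (F p.1) (F p.2))} with hP
  have mF := hR.meas
  have mjn : Measurable fun p : (ℕ → ℕ) × (ℕ → ℕ) => jn (F p.1) (F p.2) := by
    refine measurable_pi_iff.2 fun n => ?_
    have h1 : Measurable fun p : (ℕ → ℕ) × (ℕ → ℕ) => F p.1 n :=
      (measurable_pi_apply n).comp (mF.comp measurable_fst)
    have h2 : Measurable fun p : (ℕ → ℕ) × (ℕ → ℕ) => F p.2 n :=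
      (measurable_pi_apply n).comp (mF.comp measurable_snd)
    exact (measurable_of_countable (fun q : ℕ × ℕ => Nat.pair q.1 q.2)).comp (h1.prodMk h2)
  have mact : Measurable fun p : (ℕ → ℕ) × (ℕ → ℕ) => act p.1 p.2 := continuous_act.measurable
  have hPm : ∀ c, MeasurableSet (P c) := fun c =>
    (bsw c).preimage ((mF.comp mact).prodMk mjn)
  have hPc : ∀ᶠ p in residual ((ℕ → ℕ) × (ℕ → ℕ)), ∃ c, p ∈ P c := by
    filter_upwards [ract.eventually hG, rfst.eventually hG, rsnd.eventually hG] with p h1 h2 h3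
    have h4 : LE (F (act p.1 p.2)) (jn (F p.1) (F p.2)) := by
      refine (hR.te _ h1).1.trans (((hπ.iff _ _).1 (act_le p.1 p.2)).trans ((hjn _ _).trans ?_))
      exact jn_le ((hR.te _ h2).2.trans (le_jn_left _ _)) ((hR.te _ h3).2.trans (le_jn_right _ _))
    exact ceIn_iff.1 (le_iff_segs.1 h4)
  obtain ⟨c, s1, g1, N, -, -, -, hbox⟩ := uni2 Code P hPm hPc (fun _ => 0) (fun _ => 0) 0
  -- the string with the entry `N`
  set gs : ℕ → ℕ := pre g1 N (fun _ => N) with hgs
  have hgsN : gs N = N := by rw [hgs]; unfold pre; rw [if_neg (lt_irrefl N)]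
  have hgs1 : ∀ i < N, gs i = g1 i := by
    intro i hi
    rw [hgs]; unfold pre; rw [if_pos hi]
  -- second box
  set P' : Code → Set (ℕ → ℕ) := fun c => {h | segs (F (pre gs (N + 1) h)) = WC c (F h)} with hP'
  have mpre : Measurable fun h : ℕ → ℕ => pre gs (N + 1) h := by
    refine measurable_pi_iff.2 fun n => ?_
    unfold pre
    by_cases hn : n < N + 1
    · simp only [hn, if_true]
      exact measurable_const
    · simp only [hn, if_false]
      exact measurable_pi_apply n
  have hPm' : ∀ c, MeasurableSet (P' c) := fun c =>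
    (bsw c).preimage ((mF.comp mpre).prodMk mF)
  have hPc' : ∀ᶠ h in residual (ℕ → ℕ), ∃ c, h ∈ P' c := by
    filter_upwards [(rpre gs (N + 1)).eventually hG, hG] with h h1 h2
    have h4 : LE (F (pre gs (N + 1) h)) (F h) :=
      ((hR.te _ h1).1.trans ((hπ.iff _ _).1 (pre_le gs (N + 1) h))).trans (hR.te _ h2).2
    exact ceIn_iff.1 (le_iff_segs.1 h4)
  obtain ⟨c', xs, M, hM, hxs, hbox'⟩ := uni1 Code P' hPm' hPc' (act s1 gs) (N + 1)
  obtain ⟨c'', hc''⟩ := comp c c'
  set u : ℕ → ℕ := pre gs (N + 1) xs with hu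
  have hugs : ∀ i < N + 1, u i = gs i := by
    intro i hi
    rw [hu]; unfold pre; rw [if_pos hi]
  have huxs : ∀ i, N + 1 ≤ i → u i = xs i := by
    intro i hi
    rw [hu]; unfold pre; rw [if_neg (by omega)]
  have huN : u N = N := by rw [hugs N (by omega), hgsN]
  -- codes of the long strings
  have hcode : ∀ i, N < i → ∀ l : List ℕ, N < ec (ini u i ++ l) := by
    intro i hi l
    refine lt_ec_of_mem (List.mem_append_left _ ?_)
    have := ini_mem (f := u) hi
    rwa [huN] at this
  have hcode' : ∀ i, N < i → N < ec (ini u i) := by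
    intro i hi
    have := hcode i hi []
    rwa [List.append_nil] at this
  set W : Set (ℕ → ℕ) := {s | s ∈ Cy s1 N ∧ ∀ i < M, s (ec (ini u (i + 1))) = xs i} with hW
  refine ⟨u, M, W, c'', ?_, ?_, ?_, ?_⟩
  · -- open
    have e : W = Cy s1 N ∩ ⋂ i ∈ Finset.range M, {s : ℕ → ℕ | s (ec (ini u (i + 1))) = xs i} := by
      ext s
      simp [hW]
    rw [e]
    refine (isOpen_Cy _ _).inter (isOpen_biInter_finset fun i _ => ?_)
    have hc : Continuous fun x : ℕ → ℕ => x (ec (ini u (i + 1))) := continuous_apply _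
    exact (isOpen_discrete ({xs i} : Set ℕ)).preimage hc
  · -- nonempty
    classical
    have hex : ∀ k, ∃ v, (∀ i, i < M → k = ec (ini u (i + 1)) → v = xs i) ∧
        ((∀ i, i < M → k ≠ ec (ini u (i + 1))) → v = s1 k) := by
      intro k
      by_cases h : ∃ i, i < M ∧ k = ec (ini u (i + 1))
      · obtain ⟨i, hi, hk⟩ := h
        refine ⟨xs i, fun j hj hkj => ?_, fun h => absurd hk (h i hi)⟩
        have h3 := congrArg List.length (ec_inj (hk.symm.trans hkj))
        rw [ini_length, ini_length] at h3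
        congr 1
        omega
      · push Not at h
        exact ⟨s1 k, fun i hi hk => absurd hk (h i hi), fun _ => rfl⟩
    choose s0 hs0 hs0' using hex
    refine ⟨s0, fun k hk => ?_, fun i hi => hs0 _ i hi rfl⟩
    by_cases h : ∃ i, i < M ∧ k = ec (ini u (i + 1))
    · obtain ⟨i, h1, h2⟩ := h
      rw [hs0 k i h1 h2]
      by_cases hiN : i < N
      · rw [hxs i (by omega)]
        unfold act
        rw [h2]
        congr 2
        refine ini_eq_of_agree fun j hj => ?_
        rw [hugs j (by omega)]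
      · exfalso
        have := hcode' (i + 1) (by omega)
        omega
    · push Not at h
      exact hs0' k h
  · -- invariance
    rintro s ⟨hs1, hs2⟩
    refine ⟨fun k hk => ?_, fun i hi => ?_⟩
    · unfold Hm
      rw [if_neg]
      · exact hs1 k hk
      · intro h
        have := hcode M (by omega) [(dl k).getD M 0]
        omega
    · unfold Hm
      rw [if_neg]
      · exact hs2 i hi
      · intro h
        have h3 := congrArg List.length (ec_inj h)
        rw [ini_length, List.length_append, ini_length, List.length_singleton] at h3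
        omega
  · -- the functional
    filter_upwards [hbox, ract.eventually hbox'] with p h1 h2 hp1 hp2
    obtain ⟨hs1, hs2⟩ := hp1
    have h3 := h1 hs1 (fun i hi => by
      rw [hp2 i (by omega), hugs i (by omega), hgs1 i hi])
    have h4 : act p.1 p.2 ∈ Cy xs M := by
      intro i hi
      unfold act
      rw [ini_congr hp2 (by omega)]
      exact hs2 i hi
    have h5 := h2 h4
    have h6 : alp u M p.1 p.2 = pre gs (N + 1) (act p.1 p.2) := by
      funext i
      unfold alp pre
      by_cases hi : i < N + 1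
      · rw [if_pos hi, if_pos (by omega), hugs i hi]
      · rw [if_neg hi]
        by_cases hi' : i < M
        · rw [if_pos hi', huxs i (by omega), h4 i hi']
        · rw [if_neg hi']
    rw [h6]
    exact hc'' _ _ _ h3 h5

end Pool.Agent.Helper69.MWF
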